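import Mathlib

/-!
Definitions: d-to-1 Label Cover instances, their value, and the local consistency test.
-/

namespace Pool.H87.LN

open Finset
open scoped Classical

set_option linter.unusedSectionVars false
set_option linter.unusedFintypeInType false
set_option linter.style.haveILetI false

/-- A d-to-1 Label Cover instance on the bipartite graph with parts `V`, `W` and edge set `E`,
with left labels `Fin R` and right labels `Fin (d * R)`: the map `π e` of an edge `e` sends right
labels to left labels, and every left label has at most `d` preimages under it. -/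
structure LabelCover (V W : Type) (d R : ℕ) where
  E : Finset (V × W)
  π : V × W → Fin (d * R) → Fin R
  dto1 : ∀ e ∈ E, ∀ a : Fin R, (Finset.univ.filter (fun b => π e b = a)).card ≤ d

/-- A pebbling: an assignment of labels to some of the vertices. -/
abbrev Pebbling (V W : Type) (d R : ℕ) : Type := (V → Option (Fin R)) × (W → Option (Fin (d * R)))

noncomputable section

variable {V W : Type} [Fintype V] [Fintype W] {d R : ℕ}

/-- The value: the maximum over all labellings of the fraction of satisfied edges. -/
def LabelCover.value (Φ : LabelCover V W d R) : ℝ :=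
  ⨆ fg : (V → Fin R) × (W → Fin (d * R)),
    ((Φ.E.filter (fun e => Φ.π e (fg.2 e.2) = fg.1 e.1)).card : ℝ) / (Φ.E.card : ℝ)

/-- The number of labelled vertices of a pebbling. -/
def size (p : Pebbling V W d R) : ℕ :=
  (Finset.univ.filter (fun v => (p.1 v).isSome)).card +
    (Finset.univ.filter (fun w => (p.2 w).isSome)).card

/-- The pebbling `p'` extends the pebbling `p`. -/
def Extends (p p' : Pebbling V W d R) : Prop :=
  (∀ v a, p.1 v = some a → p'.1 v = some a) ∧ (∀ w b, p.2 w = some b → p'.2 w = some b)

/-- The pebbling violates no constraint of `Φ`. -/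
def LabelCover.Respects (Φ : LabelCover V W d R) (p : Pebbling V W d R) : Prop :=
  ∀ e ∈ Φ.E, ∀ a b, p.1 e.1 = some a → p.2 e.2 = some b → Φ.π e b = a

/-- `Φ` passes the `k`-consistency test (Duplicator wins the existential `k`-pebble game): there is
a nonempty family of pebblings of size at most `k`, violating no constraint, closed under
restriction, such that each member of size less than `k` extends within the family to any further
vertex. -/
def LabelCover.LocallyConsistent (Φ : LabelCover V W d R) (k : ℕ) : Prop :=
  ∃ F : Set (Pebbling V W d R), F.Nonempty ∧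
    (∀ p ∈ F, size p ≤ k ∧ Φ.Respects p) ∧
    (∀ p ∈ F, ∀ p', Extends p' p → p' ∈ F) ∧
    (∀ p ∈ F, size p < k →
      (∀ v, ∃ p' ∈ F, Extends p p' ∧ (p'.1 v).isSome) ∧
      (∀ w, ∃ p' ∈ F, Extends p p' ∧ (p'.2 w).isSome))

end

end Pool.H87.LN
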