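import Pool.Agent.H17.LC5

/-!
Soundness of a random multigraph: general threshold for the number of satisfied indices.
-/

namespace Pool.H17.LC

open Finset
open scoped Classical

set_option linter.unusedSectionVars false
set_option linter.unusedFintypeInType false

noncomputable section

variable {Y Λl Λr : Type} [Fintype Y] [Fintype Λl] [Fintype Λr] {n : ℕ}

/-- Soundness: with probability at least `3/4` every labelling satisfies fewer than `M n`
indices. -/
lemma pr_soundM [Nonempty Y] (π : Y → Λr → Λl) (p Δ M : ℕ) (hp : 0 < p) (hn : 0 < n)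
    (hM : 0 < M)
    (hsat : ∀ b c, (Finset.univ.filter (fun y => π y b = c)).card * p ≤ Fintype.card Y)
    (hA : (Fintype.card Λl : ℝ) * Fintype.card Λr * (3 * Δ / M / p) ^ M ≤ 1 / 4) :
    pr (fun ω : Fin (Δ * n) → Fin n × Fin n × Y => ¬ ∀ (f : Fin n → Λl) (g : Fin n → Λr),
      (Finset.univ.filter (fun i => π (ω i).2.2 (g (ω i).2.1) = f (ω i).1)).card < M * n) ≤
      1 / 4 := by
  haveI : Nonempty (Fin n) := ⟨⟨0, hn⟩⟩
  have hn' : (0:ℝ) < n := by exact_mod_cast hn
  have hp' : (0:ℝ) < p := by exact_mod_cast hp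
  set s : Finset (((Fin n → Λl) × (Fin n → Λr)) × Finset (Fin (Δ * n))) :=
    Finset.univ ×ˢ (Finset.powersetCard (M * n) Finset.univ) with hs
  let P : (((Fin n → Λl) × (Fin n → Λr)) × Finset (Fin (Δ * n))) →
      (Fin (Δ * n) → Fin n × Fin n × Y) → Prop := fun k ω => ∀ i ∈ k.2, ω i ∈
        Finset.univ.filter (fun x : Fin n × Fin n × Y => π x.2.2 (k.1.2 x.2.1) = k.1.1 x.1)
  have h1 : pr (fun ω : Fin (Δ * n) → Fin n × Fin n × Y => ¬ ∀ (f : Fin n → Λl)
      (g : Fin n → Λr), (Finset.univ.filter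
        (fun i => π (ω i).2.2 (g (ω i).2.1) = f (ω i).1)).card < M * n) ≤
      pr (fun ω => ∃ k ∈ s, P k ω) := by
    apply pr_mono
    intro ω hω
    push Not at hω
    obtain ⟨f, g, h⟩ := hω
    obtain ⟨K, hK, hKc⟩ := Finset.exists_subset_card_eq h
    refine ⟨((f, g), K), ?_, ?_⟩
    · rw [hs, Finset.mem_product]
      exact ⟨Finset.mem_univ _, Finset.mem_powersetCard.2 ⟨Finset.subset_univ _, hKc⟩⟩
    · intro i hi
      have := (Finset.mem_filter.1 (hK hi)).2
      exact Finset.mem_filter.2 ⟨Finset.mem_univ _, this⟩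
  refine h1.trans ((pr_exists_le s P).trans ?_)
  have h2 : ∀ k ∈ s, pr (P k) ≤ (1 / p : ℝ) ^ (M * n) := by
    intro k hk
    have hkc : k.2.card = M * n := (Finset.mem_powersetCard.1 (Finset.mem_product.1 hk).2).2
    rw [← hkc]
    exact pr_all_le' k.2 _ _ (card_sat_le π p hp hsat k.1.1 k.1.2)
  have hcard : (s.card : ℝ) = (Fintype.card Λl : ℝ) ^ n * (Fintype.card Λr : ℝ) ^ n *
      ((Δ * n).choose (M * n) : ℕ) := by
    rw [hs, Finset.card_product, Finset.card_univ, Finset.card_powersetCard, Finset.card_univ]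
    simp only [Fintype.card_prod, Fintype.card_pi, Finset.prod_const, Finset.card_univ,
      Fintype.card_fin]
    push_cast
    ring
  have hchoose : (((Δ * n).choose (M * n) : ℕ) : ℝ) ≤ (3 * Δ / M : ℝ) ^ (M * n) := by
    have h := choose_mul_pow_le (Δ * n) (M * n)
    have hM0 : (0:ℝ) < M := by exact_mod_cast hM
    have h8 : (0:ℝ) < ((M * n : ℕ) : ℝ) ^ (M * n) := by positivity
    rw [← le_div_iff₀ h8, ← div_pow] at h
    refine h.trans (le_of_eq ?_)
    congr 1
    push_cast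
    field_simp
  calc ∑ k ∈ s, pr (P k) ≤ ∑ _k ∈ s, (1 / p : ℝ) ^ (M * n) := Finset.sum_le_sum h2
    _ = s.card * (1 / p : ℝ) ^ (M * n) := by rw [Finset.sum_const, nsmul_eq_mul]
    _ ≤ (Fintype.card Λl : ℝ) ^ n * (Fintype.card Λr : ℝ) ^ n * (3 * Δ / M : ℝ) ^ (M * n) *
        (1 / p : ℝ) ^ (M * n) := by
        rw [hcard]
        gcongr
    _ = ((Fintype.card Λl : ℝ) * Fintype.card Λr * (3 * Δ / M / p) ^ M) ^ n := by
        rw [mul_pow, mul_pow, ← pow_mul, div_eq_mul_one_div (3 * (Δ:ℝ) / M) (p:ℝ), mul_pow]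
        ring
    _ ≤ (1 / 4 : ℝ) ^ n := by
        apply pow_le_pow_left₀ (by positivity) hA
    _ ≤ (1 / 4 : ℝ) ^ 1 := pow_le_pow_of_le_one (by norm_num) (by norm_num) hn
    _ = 1 / 4 := by norm_num

end

end Pool.H17.LC
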