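import Pool.Agent.H87.LN.Defs
import Pool.Agent.H87.LN.Omega
import Pool.Agent.H17.LC7

/-!
d-to-1 Label Cover instances of nearly minimal value on which local consistency of linear width
finds no contradiction.
-/

namespace Pool.H87.LN

open Finset
open scoped Classical

set_option linter.unusedSectionVars false
set_option linter.unusedFintypeInType false
set_option linter.style.haveILetI false

noncomputable section

variable {V W : Type} [Fintype V] [Fintype W] {d R : ℕ}

open Pool.H17.LC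

/-- The pebbling given by a labelling of a set. -/
def lab {n p r : ℕ} (eL : ZMod p ⊕ ZMod r ≃ Fin R)
    (eR : (ZMod p ⊕ ZMod r) × Fin d ≃ Fin (d * R)) (X : Finset (Fin n ⊕ Fin n))
    (f : Fin n ⊕ Fin n → ZMod p × Fin d) : Pebbling (Fin n) (Fin n) d R :=
  (fun v => if Sum.inl v ∈ X then some (eL (Sum.inl (f (Sum.inl v)).1)) else none,
    fun w => if Sum.inr w ∈ X then some (eR (Sum.inl (f (Sum.inr w)).1, (f (Sum.inr w)).2))
      else none)

lemma size_lab {n p r : ℕ} (eL : ZMod p ⊕ ZMod r ≃ Fin R)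
    (eR : (ZMod p ⊕ ZMod r) × Fin d ≃ Fin (d * R)) (X : Finset (Fin n ⊕ Fin n))
    (f : Fin n ⊕ Fin n → ZMod p × Fin d) : size (lab eL eR X f) = X.card := by
  unfold size lab
  have h1 : (Finset.univ.filter (fun v : Fin n => (if (Sum.inl v : Fin n ⊕ Fin n) ∈ X then
      some (eL (Sum.inl (f (Sum.inl v)).1)) else none).isSome)) = X.toLeft := by
    ext v
    simp only [Finset.mem_filter, Finset.mem_univ, true_and, Finset.mem_toLeft]
    by_cases h : (Sum.inl v : Fin n ⊕ Fin n) ∈ X <;> simp [h]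
  have h2 : (Finset.univ.filter (fun w : Fin n => (if (Sum.inr w : Fin n ⊕ Fin n) ∈ X then
      some (eR (Sum.inl (f (Sum.inr w)).1, (f (Sum.inr w)).2)) else none).isSome)) =
      X.toRight := by
    ext v
    simp only [Finset.mem_filter, Finset.mem_univ, true_and, Finset.mem_toRight]
    by_cases h : (Sum.inr v : Fin n ⊕ Fin n) ∈ X <;> simp [h]
  rw [h1, h2, Finset.card_toLeft_add_card_toRight]

/-- Assembly for fixed parameters. -/
theorem main_auxM (d p r Δ M : ℕ) [Fact p.Prime] (hd : 2 ≤ d) (hpr : p ≤ r) (hΔ : 0 < Δ)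
    (hM : 0 < M)
    (hpΔ : 8 * Δ ≤ p) (hR : p + r = R)
    (hA : (R : ℝ) * (d * R) * (3 * Δ / M / p) ^ M ≤ 1 / 4) :
    ∃ γ : ℝ, 0 < γ ∧ ∃ n₀ : ℕ, ∀ n ≥ n₀, 0 < n ∧
      ∃ Φ : LabelCover (Fin n) (Fin n) d R, Φ.E.card ≤ Δ * n ∧ Δ * n ≤ 2 * Φ.E.card ∧
        (∀ (f : Fin n → Fin R) (g : Fin n → Fin (d * R)),
          (Φ.E.filter (fun e => Φ.π e (g e.2) = f e.1)).card < M * n) ∧
        Φ.LocallyConsistent ⌊γ * n⌋₊ := by
  have hp0 : 0 < p := (Fact.out : p.Prime).pos
  haveI : NeZero p := ⟨hp0.ne'⟩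
  haveI : NeZero r := ⟨by omega⟩
  set T := 2 * p + 1 with hT
  set q := 3 * T + 2 with hq
  set Q := 2 * q with hQ
  set c := (36 * Δ) ^ Q * (3 * Δ) with hc
  have hc0 : 0 < c := by positivity
  have hcardL : Fintype.card (ZMod p ⊕ ZMod r) = R := by
    rw [Fintype.card_sum, ZMod.card, ZMod.card, hR]
  have hcardR : Fintype.card ((ZMod p ⊕ ZMod r) × Fin d) = d * R := by
    rw [Fintype.card_prod, hcardL, Fintype.card_fin, mul_comm]
  have eL : ZMod p ⊕ ZMod r ≃ Fin R := Fintype.equivFinOfCardEq hcardL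
  have eR : (ZMod p ⊕ ZMod r) × Fin d ≃ Fin (d * R) := Fintype.equivFinOfCardEq hcardR
  obtain ⟨n₀, hn₀⟩ := exists_omegaM (Y := YY p r d) (fun y b => piY y b) clashY p Δ M Q T hM hp0 hΔ
    (by omega) hpΔ (fun b c => piY_sat hpr b c _) (clashY_card hd)
    (by rw [hcardL, hcardR]; push_cast; exact hA)
  refine ⟨1 / (8 * q * c), by positivity, n₀, fun n hn => ?_⟩
  obtain ⟨hn0, hex⟩ := hn₀ n hn
  refine ⟨hn0, ?_⟩
  set N := n / c with hN
  obtain ⟨ω, I, hI1, hI2, hI3, hI4, hI5⟩ := hex N (Nat.mul_div_le n c)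
  have hNoCyc : NoCyc ω I T := hI4
  have huniq : ∀ {i j : Fin (Δ * n)}, i ∈ I → j ∈ I → (ω i).1 = (ω j).1 →
      (ω i).2.1 = (ω j).2.1 → i = j := fun hi hj h1 h2 =>
    kE_unique (by omega) hNoCyc hi hj h1 h2
  -- data of an edge
  let y : Fin n → Fin n → YY p r d := fun v w =>
    if h : ∃ i, i ∈ I ∧ (ω i).1 = v ∧ (ω i).2.1 = w then (ω h.choose).2.2 else (fun _ => 0, 0)
  have hy : ∀ i ∈ I, y (ω i).1 (ω i).2.1 = (ω i).2.2 := by
    intro i hi
    have h : ∃ j, j ∈ I ∧ (ω j).1 = (ω i).1 ∧ (ω j).2.1 = (ω i).2.1 := ⟨i, hi, rfl, rfl⟩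
    have e1 : y (ω i).1 (ω i).2.1 = (ω h.choose).2.2 := by simp only [y, dif_pos h]
    have e2 : h.choose = i := huniq h.choose_spec.1 hi h.choose_spec.2.1 h.choose_spec.2.2
    rw [e1, e2]
  let i0 : Fin d := ⟨0, by omega⟩
  have hclash : ∀ v v' w, v ≠ v' → kE ω I v w → kE ω I v' w →
      ∃ i i', (y v' w).1 i - (y v w).1 i ≠ (y v' w).1 i' - (y v w).1 i' := by
    rintro v v' w hvv ⟨i, hi, rfl, rfl⟩ ⟨j, hj, rfl, hw⟩
    have hne : i ≠ j := by
      rintro rfl
      exact hvv rfl
    have h := hI5 i hi j hj hne hw.symm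
    unfold clashY at h
    push Not at h
    rw [hy i hi, ← hw, hy j hj]
    exact h
  let F := flexB i0 (kE ω I) (fun v w => (y v w).1) hclash
  -- the instance
  let E : Finset (Fin n × Fin n) := I.image (fun i => ((ω i).1, (ω i).2.1))
  have hEmem : ∀ v w, (v, w) ∈ E ↔ kE ω I v w := by
    intro v w
    simp only [E, Finset.mem_image, kE, Prod.mk.injEq]
  have hEinj : Set.InjOn (fun i => ((ω i).1, (ω i).2.1)) (I : Set (Fin (Δ * n))) := by
    intro i hi j hj h
    simp only [Prod.mk.injEq] at h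
    exact huniq hi hj h.1 h.2
  have hEcard : E.card = I.card := Finset.card_image_of_injOn hEinj
  let Φ : LabelCover (Fin n) (Fin n) d R :=
    { E := E
      π := fun e b => eL (piY (y e.1 e.2) (eR.symm b))
      dto1 := by
        intro e _ a
        refine le_trans ?_ (piY_dto1 (y e.1 e.2) (eL.symm a))
        refine Finset.card_le_card_of_injOn eR.symm ?_ (eR.symm.injective.injOn)
        intro b hb
        have := (Finset.mem_filter.1 (Finset.mem_coe.1 hb)).2
        refine Finset.mem_coe.2 (Finset.mem_filter.2 ⟨Finset.mem_univ _, ?_⟩)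
        rw [← this, Equiv.symm_apply_apply] }
  refine ⟨Φ, ?_, ?_, ?_, ?_⟩
  · show E.card ≤ Δ * n
    rw [hEcard]
    have := Finset.card_le_univ I
    rwa [Fintype.card_fin] at this
  · show Δ * n ≤ 2 * E.card
    rw [hEcard]
    exact hI1
  · intro f g
    let K : Finset (Fin (Δ * n)) := I.filter (fun i =>
      eL (piY (y (ω i).1 (ω i).2.1) (eR.symm (g (ω i).2.1))) = f (ω i).1)
    have hK := hI2 (fun v => eL.symm (f v)) (fun w => eR.symm (g w)) K (by
      intro i hi
      obtain ⟨hiI, h⟩ := Finset.mem_filter.1 hi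
      rw [hy i hiI] at h
      rw [← h, Equiv.symm_apply_apply])
    refine lt_of_le_of_lt ?_ hK
    refine le_trans (Finset.card_le_card ?_)
      (Finset.card_image_le (f := fun i => ((ω i).1, (ω i).2.1)))
    intro e he
    obtain ⟨heE, hsat⟩ := Finset.mem_filter.1 he
    obtain ⟨i, hi, rfl⟩ := Finset.mem_image.1 heE
    exact Finset.mem_image.2 ⟨i, Finset.mem_filter.2 ⟨hi, hsat⟩, rfl⟩
  · -- local consistency
    have hshort : NoShort (bip (kE ω I)) T := noShort_of_noCyc hNoCyc
    have hsparse : Sparse (bip (kE ω I)) (2 * q) N := sparse_of (by omega) hI3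
    set k := ⌊1 / (8 * q * c : ℝ) * n⌋₊ with hk
    have hkN : 8 * q * k ≤ N := by
      rw [hN, Nat.le_div_iff_mul_le hc0]
      have h1 : (k : ℝ) ≤ 1 / (8 * q * c : ℝ) * n := Nat.floor_le (by positivity)
      have h2 : (0:ℝ) < 8 * q * c := by positivity
      have h3 : ((8 * q * k * c : ℕ) : ℝ) ≤ n := by
        push_cast
        calc (8:ℝ) * q * k * c = (8 * q * c) * k := by ring
          _ ≤ (8 * q * c) * (1 / (8 * q * c : ℝ) * n) := mul_le_mul_of_nonneg_left h1 h2.le
          _ = n := by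
              rw [← mul_assoc, mul_one_div_cancel h2.ne', one_mul]
      exact_mod_cast h3
    refine ⟨{P | ∃ X f, Good F q N k X f ∧ P = lab eL eR X f}, ?_, ?_, ?_, ?_⟩
    · exact ⟨_, ∅, fun _ => (0, i0), good_empty F hsparse (by omega) _, rfl⟩
    · rintro P ⟨X, f, hgood, rfl⟩
      refine ⟨by rw [size_lab]; exact hgood.1, ?_⟩
      rintro ⟨v, w⟩ he a b ha hb
      have hadj : (bip (kE ω I)).Adj (Sum.inl v) (Sum.inr w) := bip_lr.2 ((hEmem v w).1 he)
      by_cases hvX : (Sum.inl v : Fin n ⊕ Fin n) ∈ X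
      swap
      · simp [lab, hvX] at ha
      by_cases hwX : (Sum.inr w : Fin n ⊕ Fin n) ∈ X
      swap
      · simp [lab, hwX] at hb
      have hs := hgood.sat (Sum.inl v) hvX (Sum.inr w) hwX hadj
      have hs' : (f (Sum.inl v)).1 = (f (Sum.inr w)).1 + (y v w).1 (f (Sum.inr w)).2 := hs
      simp only [lab, if_pos hvX, if_pos hwX, Option.some.injEq] at ha hb
      show eL (piY (y v w) (eR.symm b)) = a
      rw [← ha, ← hb, Equiv.symm_apply_apply, hs']
      rfl
    · rintro P ⟨X, f, hgood, rfl⟩ P' ⟨hP1, hP2⟩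
      let X' : Finset (Fin n ⊕ Fin n) := X.filter (fun u => match u with
        | Sum.inl v => (P'.1 v).isSome
        | Sum.inr w => (P'.2 w).isSome)
      refine ⟨X', f, hgood.mono (Finset.filter_subset _ _), ?_⟩
      apply Prod.ext
      · funext v
        show P'.1 v = if Sum.inl v ∈ X' then some (eL (Sum.inl (f (Sum.inl v)).1)) else none
        rcases hv : P'.1 v with _ | a
        · have : (Sum.inl v : Fin n ⊕ Fin n) ∉ X' := by
            intro h
            have := (Finset.mem_filter.1 h).2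
            simp [hv] at this
          rw [if_neg this]
        · have h1 := hP1 v a hv
          by_cases hvX : (Sum.inl v : Fin n ⊕ Fin n) ∈ X
          · have : (Sum.inl v : Fin n ⊕ Fin n) ∈ X' :=
              Finset.mem_filter.2 ⟨hvX, by simp [hv]⟩
            rw [if_pos this]
            simp only [lab, if_pos hvX] at h1
            exact h1.symm
          · simp [lab, hvX] at h1
      · funext w
        show P'.2 w = if Sum.inr w ∈ X' then
          some (eR (Sum.inl (f (Sum.inr w)).1, (f (Sum.inr w)).2)) else none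
        rcases hw : P'.2 w with _ | a
        · have : (Sum.inr w : Fin n ⊕ Fin n) ∉ X' := by
            intro h
            have := (Finset.mem_filter.1 h).2
            simp [hw] at this
          rw [if_neg this]
        · have h1 := hP2 w a hw
          by_cases hwX : (Sum.inr w : Fin n ⊕ Fin n) ∈ X
          · have : (Sum.inr w : Fin n ⊕ Fin n) ∈ X' :=
              Finset.mem_filter.2 ⟨hwX, by simp [hw]⟩
            rw [if_pos this]
            simp only [lab, if_pos hwX] at h1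
            exact h1.symm
          · simp [lab, hwX] at h1
    · rintro P ⟨X, f, hgood, rfl⟩ hsize
      rw [size_lab] at hsize
      have key : ∀ u, ∃ g, (∀ x ∈ X, g x = f x) ∧ Good F q N k (insert u X) g := by
        intro u
        obtain ⟨g, h1, h2⟩ := hgood.forth (by omega) hshort (by omega) hsparse hkN hsize u
        refine ⟨g, h1, h2.mono ?_⟩
        intro z hz
        simpa only [Finset.mem_insert] using hz
      have hext : ∀ u g, (∀ x ∈ X, g x = f x) →
          Extends (lab eL eR X f) (lab eL eR (insert u X) g) := by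
        intro u g hg
        constructor
        · intro v a ha
          by_cases hvX : (Sum.inl v : Fin n ⊕ Fin n) ∈ X
          · simp only [lab, if_pos hvX] at ha
            have : (Sum.inl v : Fin n ⊕ Fin n) ∈ insert u X := Finset.mem_insert_of_mem hvX
            simp only [lab, if_pos this, hg _ hvX]
            exact ha
          · simp [lab, hvX] at ha
        · intro w a ha
          by_cases hwX : (Sum.inr w : Fin n ⊕ Fin n) ∈ X
          · simp only [lab, if_pos hwX] at ha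
            have : (Sum.inr w : Fin n ⊕ Fin n) ∈ insert u X := Finset.mem_insert_of_mem hwX
            simp only [lab, if_pos this, hg _ hwX]
            exact ha
          · simp [lab, hwX] at ha
      constructor
      · intro v
        obtain ⟨g, hg1, hg2⟩ := key (Sum.inl v)
        refine ⟨_, ⟨insert (Sum.inl v) X, g, hg2, rfl⟩, hext _ g hg1, ?_⟩
        have : (Sum.inl v : Fin n ⊕ Fin n) ∈ insert (Sum.inl v) X := Finset.mem_insert_self _ _
        simp only [lab, if_pos this, Option.isSome_some]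
      · intro w
        obtain ⟨g, hg1, hg2⟩ := key (Sum.inr w)
        refine ⟨_, ⟨insert (Sum.inr w) X, g, hg2, rfl⟩, hext _ g hg1, ?_⟩
        have : (Sum.inr w : Fin n ⊕ Fin n) ∈ insert (Sum.inr w) X := Finset.mem_insert_self _ _
        simp only [lab, if_pos this, Option.isSome_some]

/-- Value of an instance on which every labelling satisfies few edges. -/
lemma value_lt {n : ℕ} (Φ : LabelCover (Fin n) (Fin n) d R) (hR : 0 < R) (hd : 0 < d) (a : ℝ)
    (hE : 0 < Φ.E.card)
    (h : ∀ (f : Fin n → Fin R) (g : Fin n → Fin (d * R)),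
      ((Φ.E.filter (fun e => Φ.π e (g e.2) = f e.1)).card : ℝ) < a * Φ.E.card) :
    Φ.value < a := by
  haveI : Nonempty (Fin R) := ⟨⟨0, hR⟩⟩
  haveI : Nonempty (Fin (d * R)) := ⟨⟨0, Nat.mul_pos hd hR⟩⟩
  unfold LabelCover.value
  obtain ⟨fg, hfg⟩ := exists_eq_ciSup_of_finite
    (f := fun fg : (Fin n → Fin R) × (Fin n → Fin (d * R)) =>
      ((Φ.E.filter (fun e => Φ.π e (fg.2 e.2) = fg.1 e.1)).card : ℝ) / (Φ.E.card : ℝ))
  rw [← hfg]
  have hE' : (0:ℝ) < Φ.E.card := by exact_mod_cast hE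
  rw [div_lt_iff₀ hE']
  exact h fg.1 fg.2

/-- For all `d ≥ 2` and all `R ≥ 400` there are `γ > 0` and `n₀` such that for all `n ≥ n₀` some
d-to-1 Label Cover instance with `n` vertices on either side and label sets of sizes `R` and
`d R` has value less than `800 log (d R) / R` and passes the `⌊γ n⌋`-consistency test. -/
theorem width_gap (d : ℕ) (hd : 2 ≤ d) (R : ℕ) (hR : 400 ≤ R) :
    ∃ γ : ℝ, 0 < γ ∧ ∃ n₀ : ℕ, ∀ n ≥ n₀,
      ∃ Φ : LabelCover (Fin n) (Fin n) d R, Φ.E.Nonempty ∧ Φ.E.card ≤ R * n ∧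
        Φ.value < 800 * Real.log (d * R) / R ∧ Φ.LocallyConsistent ⌊γ * n⌋₊ := by
  obtain ⟨p, hp, hp1, hp2⟩ := Nat.exists_prime_lt_and_le_two_mul (R / 4) (by omega)
  haveI : Fact p.Prime := ⟨hp⟩
  have h2p : 2 * p ≤ R := by omega
  have h4p : R ≤ 4 * p := by omega
  set Δ := p / 8 with hΔ
  have hΔ8 : 8 * Δ ≤ p := by omega
  have hΔ16 : p ≤ 16 * Δ := by omega
  have hΔ0 : 0 < Δ := by omega
  have hR' : (400:ℝ) ≤ R := by exact_mod_cast hR
  have hd' : (2:ℝ) ≤ d := by exact_mod_cast hd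
  have hdR : (800:ℝ) ≤ d * R := by nlinarith
  have hlog : 2 ≤ Real.log (d * R) := by
    rw [Real.le_log_iff_exp_le (by linarith)]
    have h1 : Real.exp 2 = Real.exp 1 * Real.exp 1 := by rw [← Real.exp_add]; norm_num
    have h2 := Real.exp_one_lt_d9
    have h3 := Real.exp_pos 1
    rw [h1]
    nlinarith
  set M := ⌈2 * Real.log (d * R)⌉₊ with hM
  have hM1 : 2 * Real.log (d * R) ≤ M := Nat.le_ceil _
  have hM2 : (M:ℝ) < 2 * Real.log (d * R) + 1 := Nat.ceil_lt_add_one (by linarith)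
  have hM4 : (4:ℝ) ≤ M := by linarith
  have hM0 : 0 < M := by
    have : (0:ℝ) < M := by linarith
    exact_mod_cast this
  have hp0 : (0:ℝ) < p := by exact_mod_cast hp.pos
  have hA : (R : ℝ) * (d * R) * (3 * Δ / M / p) ^ M ≤ 1 / 4 := by
    have e1 : 3 * (Δ:ℝ) / M / p ≤ Real.exp (-2) := by
      have h1 : 3 * (Δ:ℝ) / M / p ≤ 1 / 8 := by
        rw [div_div, div_le_div_iff₀ (by positivity) (by norm_num)]
        have : (8:ℝ) * Δ ≤ p := by exact_mod_cast hΔ8
        nlinarith
      have h2 : Real.exp 2 ≤ 8 := by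
        have h1 : Real.exp 2 = Real.exp 1 * Real.exp 1 := by rw [← Real.exp_add]; norm_num
        have h2 := Real.exp_one_lt_d9
        have h3 := Real.exp_pos 1
        rw [h1]
        nlinarith
      rw [Real.exp_neg]
      refine h1.trans ?_
      rw [one_div]
      exact inv_anti₀ (Real.exp_pos 2) h2
    have e2 : (3 * (Δ:ℝ) / M / p) ^ M ≤ Real.exp (-(4 * Real.log (d * R))) := by
      calc (3 * (Δ:ℝ) / M / p) ^ M ≤ (Real.exp (-2)) ^ M :=
            pow_le_pow_left₀ (by positivity) e1 M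
        _ = Real.exp (M * (-2)) := by rw [← Real.exp_nat_mul]
        _ ≤ _ := by
            apply Real.exp_le_exp.2
            linarith
    have e3 : Real.exp (-(4 * Real.log (d * R))) = 1 / ((d:ℝ) * R) ^ 4 := by
      rw [Real.exp_neg, show (4:ℝ) * Real.log (d * R) = ((4:ℕ):ℝ) * Real.log (d * R) by norm_num,
        Real.exp_nat_mul, Real.exp_log (by positivity), one_div]
    rw [e3] at e2
    calc (R : ℝ) * (d * R) * (3 * Δ / M / p) ^ M ≤ (d * R) * (d * R) * (1 / ((d:ℝ) * R) ^ 4) := by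
          gcongr
          nlinarith
      _ = 1 / ((d:ℝ) * R) ^ 2 := by field_simp
      _ ≤ 1 / 4 := by
          apply one_div_le_one_div_of_le (by norm_num)
          nlinarith
  obtain ⟨γ, hγ, n₀, hmain⟩ := main_auxM d p (R - p) Δ M hd (by omega) hΔ0 hM0 hΔ8 (by omega) hA
  refine ⟨γ, hγ, n₀, fun n hn => ?_⟩
  obtain ⟨hn0, Φ, hΦ1, hΦ2, hΦ3, hΦ4⟩ := hmain n hn
  have hn' : (0:ℝ) < n := by exact_mod_cast hn0
  have hEpos : 0 < Φ.E.card := by
    have : 0 < Δ * n := Nat.mul_pos hΔ0 hn0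
    omega
  refine ⟨Φ, Finset.card_pos.1 hEpos, ?_, ?_, hΦ4⟩
  · exact hΦ1.trans (Nat.mul_le_mul_right _ (by omega))
  · refine value_lt Φ (by omega) (by omega) _ hEpos fun f g => ?_
    have h1 : ((Φ.E.filter (fun e => Φ.π e (g e.2) = f e.1)).card : ℝ) < M * n := by
      exact_mod_cast hΦ3 f g
    have h2 : (Δ:ℝ) * n ≤ 2 * Φ.E.card := by exact_mod_cast hΦ2
    have h3 : (R:ℝ) ≤ 64 * Δ := by
      have : R ≤ 64 * Δ := by omega
      exact_mod_cast this
    have h4 : (M:ℝ) ≤ 3 * Real.log (d * R) := by linarith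
    have hR0 : (0:ℝ) < R := by linarith
    have h5 : (R:ℝ) * n ≤ 128 * Φ.E.card := by nlinarith
    refine lt_of_lt_of_le h1 ?_
    rw [div_mul_eq_mul_div, le_div_iff₀ hR0]
    calc (M:ℝ) * n * R = M * (R * n) := by ring
      _ ≤ (3 * Real.log (d * R)) * (128 * Φ.E.card) := by gcongr
      _ ≤ 800 * Real.log (d * R) * Φ.E.card := by
          have : 0 ≤ Real.log (d * R) * Φ.E.card := by positivity
          linarith

end

end Pool.H87.LN
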